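import Mathlib

set_option autoImplicit false

namespace Pool.Agent.H81NS

open Filter Topology ArithmeticFunction ArithmeticFunction.vonMangoldt

theorem bd (m : ℕ) (x : ℝ) (hx : x ∈ Set.Ioc (1 : ℝ) 2) (n : ℕ) :
    ‖(x - 1) * (residueClass (1 : ZMod m) n / (n : ℝ) ^ x)‖ ≤
      (if n.Prime ∧ (n : ZMod m) = 1 then (1 : ℝ) / n else 0) +
      (if n.Prime then 0 else residueClass (1 : ZMod m) n) / n := by
  have hx1 : 0 < x - 1 := by linarith [hx.1]
  have hr := residueClass_nonneg (1 : ZMod m) n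
  rcases Nat.eq_zero_or_pos n with rfl | hn
  · simp
  have hn' : (1 : ℝ) ≤ n := by exact_mod_cast hn
  have hn0 : (0 : ℝ) < n := by linarith
  have hpx : (n : ℝ) ^ x = n * (n : ℝ) ^ (x - 1) := by
    rw [Real.rpow_sub_one hn0.ne']
    field_simp
  have hpos : 0 < (n : ℝ) ^ x := Real.rpow_pos_of_pos hn0 x
  have hpos1 : 0 < (n : ℝ) ^ (x - 1) := Real.rpow_pos_of_pos hn0 _
  rw [Real.norm_of_nonneg (mul_nonneg hx1.le (div_nonneg hr hpos.le))]
  by_cases hp : n.Prime
  · by_cases ha : (n : ZMod m) = 1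
    · rw [if_pos ⟨hp, ha⟩, if_pos hp, zero_div, add_zero]
      have hre : residueClass (1 : ZMod m) n = Real.log n := by
        rw [residueClass, Set.indicator_of_mem (by exact ha), vonMangoldt_apply_prime hp]
      rw [hre, hpx]
      have hexp : (x - 1) * Real.log n ≤ (n : ℝ) ^ (x - 1) := by
        rw [Real.rpow_def_of_pos hn0]
        have := Real.add_one_le_exp (Real.log n * (x - 1))
        nlinarith
      rw [← mul_div_assoc, div_le_div_iff₀ (mul_pos hn0 hpos1) hn0]
      nlinarith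
    · have hre : residueClass (1 : ZMod m) n = 0 := by
        rw [residueClass, Set.indicator_of_notMem (by exact ha)]
      rw [hre, if_neg (fun h => ha h.2), if_pos hp]
      simp
  · rw [if_neg (fun h => hp h.1), if_neg hp, zero_add]
    have h1 : residueClass (1 : ZMod m) n / (n : ℝ) ^ x ≤ residueClass (1 : ZMod m) n / n := by
      apply div_le_div_of_nonneg_left hr hn0
      conv_lhs => rw [← Real.rpow_one (n : ℝ)]
      exact Real.rpow_le_rpow_of_exponent_le hn' hx.1.le
    have h2 : 0 ≤ residueClass (1 : ZMod m) n / (n : ℝ) ^ x := div_nonneg hr hpos.le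
    nlinarith [hx.2]

theorem ns (m : ℕ) [NeZero m] :
    ¬ Summable (fun q : ℕ => if q.Prime ∧ (q : ZMod m) = 1 then (1 : ℝ) / q else 0) := by
  intro hS
  have hB : Summable (fun n : ℕ => (if n.Prime ∧ (n : ZMod m) = 1 then (1 : ℝ) / n else 0) +
      (if n.Prime then 0 else residueClass (1 : ZMod m) n) / n) :=
    hS.add (summable_residueClass_non_primes_div _)
  have hI : Set.Ioc (1 : ℝ) 2 ∈ 𝓝[>] (1 : ℝ) := Ioc_mem_nhdsGT (by norm_num)
  have hx0 : Tendsto (fun x : ℝ => x - 1) (𝓝[>] (1 : ℝ)) (𝓝 0) := by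
    have : Tendsto (fun x : ℝ => x - 1) (𝓝 (1 : ℝ)) (𝓝 (1 - 1)) :=
      (continuous_id.sub continuous_const).tendsto 1
    rw [sub_self] at this
    exact this.mono_left nhdsWithin_le_nhds
  have hlim : Tendsto (fun x : ℝ => ∑' n : ℕ, (x - 1) *
      (residueClass (1 : ZMod m) n / (n : ℝ) ^ x)) (𝓝[>] (1 : ℝ)) (𝓝 (∑' _ : ℕ, (0 : ℝ))) := by
    refine tendsto_tsum_of_dominated_convergence hB (fun n => ?_) ?_
    · refine squeeze_zero_norm' (a := fun x => (x - 1) * residueClass (1 : ZMod m) n) ?_ ?_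
      · filter_upwards [hI] with x hx
        have hx1 : 0 < x - 1 := by linarith [hx.1]
        have hr := residueClass_nonneg (1 : ZMod m) n
        rcases Nat.eq_zero_or_pos n with rfl | hn
        · simp
        have hn' : (1 : ℝ) ≤ n := by exact_mod_cast hn
        have h1 : 1 ≤ (n : ℝ) ^ x := Real.one_le_rpow hn' (by linarith [hx.1])
        rw [Real.norm_of_nonneg (mul_nonneg hx1.le (div_nonneg hr (by linarith)))]
        exact mul_le_mul_of_nonneg_left (div_le_self hr h1) hx1.le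
      · have := hx0.mul_const (residueClass (1 : ZMod m) n)
        rwa [zero_mul] at this
    · filter_upwards [hI] with x hx n
      exact bd m x hx n
  rw [tsum_zero] at hlim
  obtain ⟨C, hC⟩ := LSeries_residueClass_lower_bound (q := m) (a := 1) isUnit_one
  have hlow : ∀ᶠ x in 𝓝[>] (1 : ℝ), (m.totient : ℝ)⁻¹ - C * (x - 1) ≤
      ∑' n : ℕ, (x - 1) * (residueClass (1 : ZMod m) n / (n : ℝ) ^ x) := by
    filter_upwards [hI] with x hx
    have hx1 : 0 < x - 1 := by linarith [hx.1]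
    rw [tsum_mul_left]
    have h := mul_le_mul_of_nonneg_left (hC hx) hx1.le
    have he : (x - 1) * ((m.totient : ℝ)⁻¹ / (x - 1) - C) = (m.totient : ℝ)⁻¹ - C * (x - 1) := by
      field_simp
    rw [he] at h
    exact h
  have hl2 : Tendsto (fun x : ℝ => (m.totient : ℝ)⁻¹ - C * (x - 1)) (𝓝[>] (1 : ℝ))
      (𝓝 ((m.totient : ℝ)⁻¹ - C * 0)) := tendsto_const_nhds.sub (hx0.const_mul C)
  have hfin := le_of_tendsto_of_tendsto hl2 hlim hlow
  have hm : 0 < m.totient := m.totient_pos.mpr (Nat.pos_of_ne_zero (NeZero.ne m))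
  have hpos : 0 < (m.totient : ℝ)⁻¹ := inv_pos.mpr (Nat.cast_pos.mpr hm)
  linarith

end Pool.Agent.H81NS
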